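import Pool.Agent.H143R3.MT.Stmts

/-!
# Task MT-E3: survival probability on a grid
-/

set_option autoImplicit false

namespace Pool.Agent.H138R3.MT

open MeasureTheory ProbabilityTheory Filter Topology
open scoped ENNReal NNReal
open Pool.Agent.H143R3.MT

universe u

/-- configurations of traps avoiding the path `l` -/
def CC (h : ℝ≥0) (l : List ℤ) : Set ((ℤ → ℕ) × (ℤ × ℕ → ℝ≥0 → ℤ)) :=
  {q | ∀ y : ℤ, ∀ j < q.1 y, ∀ (i : ℕ) (hi : i < l.length), y + q.2 (y, j) (i * h) ≠ l[i]}

theorem measurableSet_CC (h : ℝ≥0) (l : List ℤ) : MeasurableSet (CC h l) := by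
  have e : CC h l = ⋂ y : ℤ, ⋂ j : ℕ, ⋂ i : ℕ, ⋂ hi : i < l.length,
      ({q : (ℤ → ℕ) × (ℤ × ℕ → ℝ≥0 → ℤ) | q.1 y ≤ j} ∪
        {q : (ℤ → ℕ) × (ℤ × ℕ → ℝ≥0 → ℤ) | y + q.2 (y, j) (i * h) ≠ l[i]}) := by
    ext q
    simp only [CC, Set.mem_ofPred_eq, Set.mem_iInter, Set.mem_union]
    constructor
    · intro hq y j i hi
      by_cases hj : q.1 y ≤ j
      · exact Or.inl hj
      · exact Or.inr (hq y j (not_le.mp hj) i hi)
    · intro hq y j hj i hi
      exact (hq y j i hi).resolve_left (not_le.mpr hj)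
  rw [e]
  refine MeasurableSet.iInter fun y => MeasurableSet.iInter fun j => MeasurableSet.iInter fun i =>
    MeasurableSet.iInter fun hi => MeasurableSet.union ?_ ?_
  · exact measurableSet_le ((measurable_pi_apply y).comp measurable_fst) measurable_const
  · have h1 : Measurable (fun q : (ℤ → ℕ) × (ℤ × ℕ → ℝ≥0 → ℤ) => q.2 (y, j)) :=
      (measurable_pi_apply (y, j)).comp measurable_snd
    have h2 : Measurable (fun q : (ℤ → ℕ) × (ℤ × ℕ → ℝ≥0 → ℤ) => q.2 (y, j) (i * h)) :=
      (measurable_pi_apply _).comp h1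
    have hm : Measurable (fun q : (ℤ → ℕ) × (ℤ × ℕ → ℝ≥0 → ℤ) => y + q.2 (y, j) (i * h)) :=
      h2.const_add y
    exact (hm (measurableSet_singleton l[i])).compl

theorem taskE3 : TaskE3.{u} := by
  intro e1 e2 Ω _ P _ κ ρ ν X N Y hM h n A
  classical
  set g : Ω → (Fin n → ℤ) := fun ω i => X ((((i : ℕ) + 1 : ℕ) : ℝ≥0) * h) ω with hg
  have hgm : Measurable g := measurable_pi_iff.mpr fun i => hM.walk.meas _
  have hgl : ∀ ω, gl X h n ω = List.ofFn (g ω) := fun ω => rfl
  set F : (Fin n → ℤ) → ℝ≥0∞ := fun v => (if List.ofFn v ∈ A then 1 else 0) *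
    surv ν (sk (ρ * h)) (0 :: List.ofFn v) with hF
  have hR : EX (sk (κ * h)) n 0 (fun l => (if l ∈ A then 1 else 0) *
      surv ν (sk (ρ * h)) (0 :: l)) = ∑' v, F v * P (g ⁻¹' {v}) := by
    rw [← e1 Ω P κ X hM.walk h n]
    have h1 : (∫⁻ ω, (fun l => (if l ∈ A then 1 else 0) *
        surv ν (sk (ρ * h)) (0 :: l)) (gl X h n ω) ∂P) = ∫⁻ v, F v ∂(P.map g) := by
      rw [lintegral_map Measurable.of_discrete hgm]
      rfl
    rw [h1, lintegral_countable']
    congr 1
    funext v
    rw [Measure.map_apply hgm (measurableSet_singleton v)]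
  -- the trap configuration
  set Z : Ω → (ℤ → ℕ) × (ℤ × ℕ → ℝ≥0 → ℤ) :=
    fun ω => ((fun (y : ℤ) => N y ω), (fun (i : ℤ × ℕ) (s : ℝ≥0) => Y i.1 i.2 s ω)) with hZ
  have hZm : Measurable Z := by
    apply Measurable.prodMk
    · exact measurable_pi_iff.mpr fun y => hM.number_meas y
    · exact measurable_pi_iff.mpr fun i => measurable_pi_iff.mpr fun s => (hM.trap i.1 i.2).meas s
  -- the pieces
  set S : (Fin n → ℤ) → Set Ω := fun v =>
    if List.ofFn v ∈ A then g ⁻¹' {v} ∩ Z ⁻¹' (CC h (0 :: List.ofFn v)) else ∅ with hS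
  have hSm : ∀ v, MeasurableSet (S v) := by
    intro v
    simp only [hS]
    split_ifs
    · exact (hgm (measurableSet_singleton v)).inter (hZm (measurableSet_CC _ _))
    · exact MeasurableSet.empty
  have hSsub : ∀ v, S v ⊆ g ⁻¹' {v} := by
    intro v
    simp only [hS]
    split_ifs
    · exact Set.inter_subset_left
    · exact Set.empty_subset _
  have hSd : Pairwise (Function.onFun Disjoint S) := by
    intro v w hvw
    rw [Function.onFun, Set.disjoint_left]
    intro ω h1 h2
    exact hvw ((hSsub v h1).symm.trans (hSsub w h2))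
  have hSP : ∀ v, P (S v) = F v * P (g ⁻¹' {v}) := by
    intro v
    simp only [hS, hF]
    split_ifs with hv
    · rw [one_mul]
      have hcyl : g ⁻¹' {v} = (fun (ω : Ω) (s : ℝ≥0) => X s ω) ⁻¹'
          {x : ℝ≥0 → ℤ | (fun i : Fin n => x ((((i : ℕ) + 1 : ℕ) : ℝ≥0) * h)) = v} := rfl
      have hcylm : MeasurableSet
          {x : ℝ≥0 → ℤ | (fun i : Fin n => x ((((i : ℕ) + 1 : ℕ) : ℝ≥0) * h)) = v} := by
        have hm : Measurable (fun x : ℝ≥0 → ℤ => fun i : Fin n =>
            x ((((i : ℕ) + 1 : ℕ) : ℝ≥0) * h)) :=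
          measurable_pi_iff.mpr fun i => measurable_pi_apply _
        exact hm (measurableSet_singleton v)
      have hind := hM.indepX.measure_inter_preimage_eq_mul _ _ hcylm
        (measurableSet_CC h (0 :: List.ofFn v))
      have he2 := e2 Ω P κ ρ ν X N Y hM h (0 :: List.ofFn v)
      rw [hcyl]
      refine Eq.trans hind ?_
      rw [mul_comm]
      congr 1
    · rw [measure_empty, zero_mul, zero_mul]
  -- the event
  have hae : ({ω | gl X h n ω ∈ A} ∩ aliveG X N Y h n : Set Ω) =ᵐ[P] ⋃ v, S v := by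
    filter_upwards [hM.walk.zero] with ω h0
    apply propext
    have key : ω ∈ aliveG X N Y h n ↔ ω ∈ Z ⁻¹' (CC h (0 :: List.ofFn (g ω))) := by
      simp only [aliveG, CC, hZ, Set.mem_preimage, Set.mem_ofPred_eq]
      constructor
      · intro ha y j hj i hi
        simp only [List.length_cons, List.length_ofFn] at hi
        have h1 := ha i (by omega) y j hj
        rcases i with _ | i
        · simpa [h0] using h1
        · simpa [hg] using h1
      · intro ha i hi y j hj
        have h1 := ha y j hj i (by simp only [List.length_cons, List.length_ofFn]; omega)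
        rcases i with _ | i
        · simpa [h0] using h1
        · simpa [hg] using h1
    show (gl X h n ω ∈ A ∧ ω ∈ aliveG X N Y h n) ↔ ω ∈ ⋃ v, S v
    rw [Set.mem_iUnion, key, hgl]
    constructor
    · rintro ⟨h1, h2⟩
      refine ⟨g ω, ?_⟩
      simp only [hS]
      rw [if_pos h1]
      exact ⟨rfl, h2⟩
    · rintro ⟨v, hv⟩
      have hgv : g ω = v := hSsub v hv
      simp only [hS] at hv
      split_ifs at hv with h1
      · subst hgv
        exact ⟨h1, hv.2⟩
      · exact hv.elim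
  rw [measure_congr hae, measure_iUnion hSd hSm, hR]
  exact tsum_congr hSP

end Pool.Agent.H138R3.MT
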